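import Pool.Agent.H294Z.Cube.Defs
import Pool.Agent.H294Z.Cube.Main

set_option autoImplicit false

open Pool.Agent.H294Z.Cube

/-- Every CAT(0) cubulation of the 3-ball (CAT(0) in the form of Gromov's link condition) with `V`
cubes and `A` boundary squares admits a set of `V` lattice cubes with at most `A` boundary squares. -/
theorem Pool.Agent.Results.MP_d6bc72_co.ACubeIsoperimetry.result (X : Cubulation)
    (hX : X.FlagLinks) :
    ∃ S : Finset (Fin 3 → ℤ), S.card = X.n ∧
      (latticeBoundary S).encard ≤ X.boundarySquares.encard :=
  Pool.Agent.H294Z.Cube.main X hX
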